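import Mathlib

/-! AMENABLE SEMIGROUPS (helper35): patterns of four groups with types in a subgroup `M` of the affine group of `F_3`.
If the shares `C m` of the good elements in the fibres have the sum `< #M / 3`, one admissible pattern works. -/

set_option autoImplicit false

namespace Pool.Agent.AmS

open Finset

/-- affine maps `z ↦ a + b z` of `F_3` -/
abbrev R3 : Type := ZMod 3 × ZMod 3

/-- composition -/
def mulR (x y : R3) : R3 := (x.1 + x.2 * y.1, x.2 * y.2)

/-- inverse -/
def invR (x : R3) : R3 := (-(x.2 * x.1), x.2)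

theorem mulR_eq_iff : ∀ x y c : R3, y.2 ≠ 0 → (mulR x y = c ↔ x = mulR c (invR y)) := by decide

/-- the six bijections -/
def U6 : Finset R3 := {(0, 1), (0, 2), (1, 1), (1, 2), (2, 1), (2, 2)}

theorem mem_U6 : ∀ x : R3, x.2 ≠ 0 → x ∈ U6 := by decide

theorem subgroups : ∀ M ∈ U6.powerset, M.Nonempty → (∀ x ∈ M, ∀ y ∈ M, mulR x y ∈ M) →
    M = {(0, 1)} ∨ M = {(0, 1), (0, 2)} ∨ M = {(0, 1), (1, 2)} ∨ M = {(0, 1), (2, 2)} ∨
    M = {(0, 1), (1, 1), (2, 1)} ∨ M = U6 := by
  decide

/-- the pattern `l` with one more type `c` -/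
theorem comb (M : Finset R3) (hne : M.Nonempty) (hM : ∀ x ∈ M, x.2 ≠ 0)
    (hmul : ∀ x ∈ M, ∀ y ∈ M, mulR x y ∈ M) (C : R3 → ℝ) (hC : ∀ m, 0 ≤ C m)
    (hsum : 3 * ∑ m ∈ M, C m < M.card) (E : List R3 → Prop) (h0 : E [])
    (hstep : ∀ l : List R3, l.length < 4 → (∀ x ∈ l, x ∈ M) → ∀ c ∈ M, E l →
      (l.map fun x => C (mulR c (invR x))).sum < 1 → E (l ++ [c])) :
    ∃ l : List R3, E l ∧ l.length = 4 ∧ (∀ x ∈ l, x ∈ M) ∧ ∃ z : ZMod 3, ∀ x ∈ l, x.1 + x.2 * z ≠ 0 := by
  -- a pattern with four types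
  have four : ∀ a b c d : R3, a ∈ M → b ∈ M → c ∈ M → d ∈ M → C (mulR b (invR a)) < 1 →
      C (mulR c (invR a)) + C (mulR c (invR b)) < 1 →
      C (mulR d (invR a)) + C (mulR d (invR b)) + C (mulR d (invR c)) < 1 →
      (∃ z : ZMod 3, ∀ x ∈ [a, b, c, d], x.1 + x.2 * z ≠ 0) →
      ∃ l : List R3, E l ∧ l.length = 4 ∧ (∀ x ∈ l, x ∈ M) ∧ ∃ z : ZMod 3, ∀ x ∈ l, x.1 + x.2 * z ≠ 0 := by
    intro a b c d ha hb hc hd h1 h2 h3 hz
    have e1 : E [a] := hstep [] (by simp) (by simp) a ha h0 (by simp)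
    have e2 : E [a, b] := hstep [a] (by simp) (by simpa using ha) b hb e1 (by simpa using h1)
    have e3 : E [a, b, c] := hstep [a, b] (by simp) (by simpa using ⟨ha, hb⟩) c hc e2 (by simpa using h2)
    have e4 : E [a, b, c, d] := hstep [a, b, c] (by simp) (by simpa using ⟨ha, hb, hc⟩) d hd e3
      (by simpa [add_assoc] using h3)
    exact ⟨[a, b, c, d], e4, rfl, by simpa using ⟨ha, hb, hc, hd⟩, hz⟩
  -- the pattern `1, 1, u, u`
  have two : ∀ u : R3, (0, 1) ∈ M → u ∈ M → 2 * C u + C (0, 1) < 1 →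
      ∃ l : List R3, E l ∧ l.length = 4 ∧ (∀ x ∈ l, x ∈ M) ∧ ∃ z : ZMod 3, ∀ x ∈ l, x.1 + x.2 * z ≠ 0 := by
    intro u h1 hu h
    have e1 : ∀ u : R3, mulR u (invR (0, 1)) = u := by decide
    have e2 : ∀ u : R3, u.2 ≠ 0 → mulR u (invR u) = (0, 1) := by decide
    have e3 : ∀ u : R3, u.2 ≠ 0 → ∃ z : ZMod 3, ∀ x ∈ [(0, 1), (0, 1), u, u], x.1 + x.2 * z ≠ 0 := by decide
    refine four (0, 1) (0, 1) u u h1 h1 hu hu ?_ ?_ ?_ (e3 u (hM u hu))
    · rw [e1]
      linarith [hC u]
    · rw [e1]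
      linarith [hC (0, 1)]
    · rw [e1, e2 u (hM u hu)]
      linarith
  have h0' := hC (0, 1)
  rcases subgroups M (Finset.mem_powerset.2 fun x hx => mem_U6 x (hM x hx)) hne hmul with
    h | h | h | h | h | h
  · -- the trivial group
    subst h
    rw [Finset.sum_singleton, Finset.card_singleton, Nat.cast_one] at hsum
    exact two (0, 1) (by simp) (by simp) (by linarith)
  · -- order two
    have hs : 3 * (C (0, 1) + C (0, 2)) < 2 := by
      rw [h, Finset.sum_pair (by decide)] at hsum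
      have : (({(0, 1), (0, 2)} : Finset R3).card) = 2 := by decide
      rw [this] at hsum
      exact_mod_cast hsum
    have m1 : (0, 1) ∈ M := by rw [h]; simp
    have m2 : (0, 2) ∈ M := by rw [h]; simp
    by_cases h3 : 3 * C (0, 1) < 1
    · exact two (0, 1) m1 m1 (by linarith)
    · exact two (0, 2) m1 m2 (by linarith)
  · have hs : 3 * (C (0, 1) + C (1, 2)) < 2 := by
      rw [h, Finset.sum_pair (by decide)] at hsum
      have : (({(0, 1), (1, 2)} : Finset R3).card) = 2 := by decide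
      rw [this] at hsum
      exact_mod_cast hsum
    have m1 : (0, 1) ∈ M := by rw [h]; simp
    have m2 : (1, 2) ∈ M := by rw [h]; simp
    by_cases h3 : 3 * C (0, 1) < 1
    · exact two (0, 1) m1 m1 (by linarith)
    · exact two (1, 2) m1 m2 (by linarith)
  · have hs : 3 * (C (0, 1) + C (2, 2)) < 2 := by
      rw [h, Finset.sum_pair (by decide)] at hsum
      have : (({(0, 1), (2, 2)} : Finset R3).card) = 2 := by decide
      rw [this] at hsum
      exact_mod_cast hsum
    have m1 : (0, 1) ∈ M := by rw [h]; simp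
    have m2 : (2, 2) ∈ M := by rw [h]; simp
    by_cases h3 : 3 * C (0, 1) < 1
    · exact two (0, 1) m1 m1 (by linarith)
    · exact two (2, 2) m1 m2 (by linarith)
  · -- the translations
    have hs : 3 * (C (0, 1) + (C (1, 1) + C (2, 1))) < 3 := by
      rw [h, Finset.sum_insert (by decide), Finset.sum_pair (by decide)] at hsum
      have : (({(0, 1), (1, 1), (2, 1)} : Finset R3).card) = 3 := by decide
      rw [this] at hsum
      exact_mod_cast hsum
    have m1 : (0, 1) ∈ M := by rw [h]; simp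
    have m2 : (1, 1) ∈ M := by rw [h]; simp
    have m3 : (2, 1) ∈ M := by rw [h]; simp
    by_cases h3 : 2 * C (1, 1) + C (0, 1) < 1
    · exact two (1, 1) m1 m2 h3
    · exact two (2, 1) m1 m3 (by linarith)
  · -- the full group; `H = {1, t}`, `t = (0, 2)`, `ρ = (1, 1)`
    have hs : 3 * (C (0, 1) + (C (0, 2) + (C (1, 1) + (C (1, 2) + (C (2, 1) + C (2, 2)))))) < 6 := by
      rw [h, U6, Finset.sum_insert (by decide), Finset.sum_insert (by decide), Finset.sum_insert (by decide),
        Finset.sum_insert (by decide), Finset.sum_pair (by decide)] at hsum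
      have : (({(0, 1), (0, 2), (1, 1), (1, 2), (2, 1), (2, 2)} : Finset R3).card) = 6 := by decide
      rw [this] at hsum
      exact_mod_cast hsum
    have hm : ∀ x : R3, x.2 ≠ 0 → x ∈ M := fun x hx => by rw [h]; exact mem_U6 x hx
    have m1 : (0, 1) ∈ M := hm _ (by decide)
    have c1 := hC (0, 2)
    have c2 := hC (1, 1)
    have c3 := hC (1, 2)
    have c4 := hC (2, 1)
    have c5 := hC (2, 2)
    by_cases w1 : 2 * C (1, 1) + C (0, 1) < 1
    · exact two (1, 1) m1 (hm _ (by decide)) w1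
    by_cases w2 : 2 * C (1, 2) + C (0, 1) < 1
    · exact two (1, 2) m1 (hm _ (by decide)) w2
    by_cases w3 : 2 * C (2, 1) + C (0, 1) < 1
    · exact two (2, 1) m1 (hm _ (by decide)) w3
    by_cases w4 : 2 * C (2, 2) + C (0, 1) < 1
    · exact two (2, 2) m1 (hm _ (by decide)) w4
    -- patterns `1, t, ρ, t ρ` and `1, t, ρ², t ρ²`
    by_cases w5 : C (1, 1) + C (1, 2) < 1 ∧ C (2, 1) + C (2, 2) + C (0, 2) < 1
    · refine four (0, 1) (0, 2) (1, 1) (2, 2) m1 (hm _ (by decide)) (hm _ (by decide)) (hm _ (by decide))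
        ?_ ?_ ?_ (by decide)
      · have e : mulR (0, 2) (invR (0, 1)) = (0, 2) := by decide
        rw [e]
        linarith [w5.2]
      · have e : mulR (1, 1) (invR (0, 1)) = (1, 1) := by decide
        have e' : mulR (1, 1) (invR (0, 2)) = (1, 2) := by decide
        rw [e, e']
        exact w5.1
      · have e : mulR (2, 2) (invR (0, 1)) = (2, 2) := by decide
        have e' : mulR (2, 2) (invR (0, 2)) = (2, 1) := by decide
        have e'' : mulR (2, 2) (invR (1, 1)) = (0, 2) := by decide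
        rw [e, e', e'']
        linarith [w5.2]
    by_cases w6 : C (2, 1) + C (2, 2) < 1 ∧ C (1, 1) + C (1, 2) + C (0, 2) < 1
    · refine four (0, 1) (0, 2) (2, 1) (1, 2) m1 (hm _ (by decide)) (hm _ (by decide)) (hm _ (by decide))
        ?_ ?_ ?_ (by decide)
      · have e : mulR (0, 2) (invR (0, 1)) = (0, 2) := by decide
        rw [e]
        linarith [w6.2]
      · have e : mulR (2, 1) (invR (0, 1)) = (2, 1) := by decide
        have e' : mulR (2, 1) (invR (0, 2)) = (2, 2) := by decide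
        rw [e, e']
        exact w6.1
      · have e : mulR (1, 2) (invR (0, 1)) = (1, 2) := by decide
        have e' : mulR (1, 2) (invR (0, 2)) = (1, 1) := by decide
        have e'' : mulR (1, 2) (invR (2, 1)) = (0, 2) := by decide
        rw [e, e', e'']
        linarith [w6.2]
    exfalso
    push Not at w1 w2 w3 w4
    by_cases A1 : C (1, 1) + C (1, 2) < 1
    · have B1 : 1 ≤ C (2, 1) + C (2, 2) + C (0, 2) := by
        by_contra hcon
        exact w5 ⟨A1, not_le.1 hcon⟩
      by_cases A2 : C (2, 1) + C (2, 2) < 1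
      · have B2 : 1 ≤ C (1, 1) + C (1, 2) + C (0, 2) := by
          by_contra hcon
          exact w6 ⟨A2, not_le.1 hcon⟩
        linarith
      · push Not at A2
        linarith
    · push Not at A1
      linarith

end Pool.Agent.AmS
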