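import Pool.Agent.AmS.Greedy
import Pool.Agent.AmS.Comb

/-! AMENABLE SEMIGROUPS (helper35): if no four groups with an admissible pattern exist, a third of the elements of
every sufficiently invariant finite set are good. -/

set_option autoImplicit false

namespace Pool.Agent.AmS

open Finset

variable {α : Type} [DecidableEq α]

theorem Ev.triv {op : α → α → α} {S : Set α} {p : Finset α → Prop} (h : ∀ Φ, p Φ) : Ev op S p :=
  ⟨∅, 1, 0, fun g hg => absurd hg (Finset.notMem_empty g), one_pos, fun Φ _ _ => h Φ⟩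

theorem closed_inv : ∀ M ∈ U6.powerset, (∀ x ∈ M, ∀ y ∈ M, mulR x y ∈ M) →
    ∀ x ∈ M, ∀ y ∈ M, mulR (invR x) y ∈ M := by
  decide

theorem mul_inv_mul : ∀ x y : R3, x.2 ≠ 0 → mulR x (mulR (invR x) y) = y := by decide

theorem ct_add (Φ : Finset α) (P Q : α → Prop) : ct Φ P ≤ ct Φ (fun s => P s ∧ Q s) + ct Φ (fun s => ¬ Q s) := by
  refine (ct_mono (Q := fun s => (P s ∧ Q s) ∨ ¬ Q s) Φ fun s _ hs => ?_).trans (ct_or _ _ _)
  by_cases h : Q s
  · exact Or.inl ⟨hs, h⟩
  · exact Or.inr h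

/-- the fibres of a set -/
theorem ct_fib (Φ : Finset α) (typ : α → R3) (M : Finset R3) (hM : ∀ s ∈ Φ, typ s ∈ M) (P : α → Prop) :
    ct Φ P = ∑ m ∈ M, ct Φ (fun s => typ s = m ∧ P s) := by
  classical
  rw [ct_eq, Finset.card_eq_sum_card_fiberwise (f := typ) (t := M) (fun s hs => by
    rw [Finset.mem_coe, Finset.mem_filter] at hs
    exact hM s hs.1)]
  refine Finset.sum_congr rfl fun m _ => ?_
  rw [ct_eq, Finset.filter_filter]
  congr 1
  ext s
  simp only [Finset.mem_filter]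
  tauto

/-- **all elements of `S` act bijectively on `F_3`** -/
theorem third_perm (op : α → α → α) (S : Set α)
    (hcan : ∀ s ∈ S, ∀ s' ∈ S, ∀ g ∈ S, op s g = op s' g → s = s')
    (hop : ∀ s ∈ S, ∀ t ∈ S, op s t ∈ S) (hne : S.Nonempty)
    (typ : α → R3) (htyp : ∀ s t, typ (op s t) = mulR (typ s) (typ t)) (hbij : ∀ s ∈ S, (typ s).2 ≠ 0)
    (P : α → Prop) (hno : ∀ u : ℕ → R3, (∃ z : ZMod 3, ∀ i < 4, (u i).1 + (u i).2 * z ≠ 0) →
      ¬ Ex op S typ P u 4) (ε : ℝ) (hε : 0 < ε) :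
    Ev op S (fun Φ => (1 / 3 - ε) * Φ.card ≤ ct Φ P) := by
  classical
  -- large `ε`
  by_cases hε3 : 1 / 3 ≤ ε
  · refine Ev.triv fun Φ => ?_
    have h1 : (0 : ℝ) ≤ Φ.card := Nat.cast_nonneg _
    have h2 : (0 : ℝ) ≤ ct Φ P := Nat.cast_nonneg _
    nlinarith
  push Not at hε3
  obtain ⟨M, hMdef⟩ : ∃ M : Finset R3, M = Finset.univ.filter fun m => ∃ s ∈ S, typ s = m := ⟨_, rfl⟩
  have hMmem : ∀ m, m ∈ M ↔ ∃ s ∈ S, typ s = m := fun m => by rw [hMdef]; simp
  have hMbij : ∀ m ∈ M, m.2 ≠ 0 := fun m hm => by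
    obtain ⟨s, hs, rfl⟩ := (hMmem m).1 hm
    exact hbij s hs
  have hMne : M.Nonempty := by
    obtain ⟨s, hs⟩ := hne
    exact ⟨typ s, (hMmem _).2 ⟨s, hs, rfl⟩⟩
  have hMmul : ∀ x ∈ M, ∀ y ∈ M, mulR x y ∈ M := by
    intro x hx y hy
    obtain ⟨s, hs, rfl⟩ := (hMmem x).1 hx
    obtain ⟨t, ht, rfl⟩ := (hMmem y).1 hy
    exact (hMmem _).2 ⟨op s t, hop s hs t ht, htyp s t⟩
  have hMU : M ∈ U6.powerset := Finset.mem_powerset.2 fun x hx => mem_U6 x (hMbij x hx)
  have hMinv := closed_inv M hMU hMmul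
  obtain ⟨k, hk⟩ : ∃ k : ℝ, k = M.card := ⟨_, rfl⟩
  have hk1 : 1 ≤ k := by
    rw [hk]
    exact_mod_cast hMne.card_pos
  have hk6 : k ≤ 6 := by
    rw [hk]
    have h1 := Finset.card_le_card (Finset.mem_powerset.1 hMU)
    have h2 : U6.card = 6 := by decide
    rw [h2] at h1
    exact_mod_cast h1
  -- equidistribution in the fibres
  have hrep : ∀ m : R3, ∃ s : α, m ∈ M → s ∈ S ∧ typ s = m := by
    intro m
    by_cases hm : m ∈ M
    · obtain ⟨s, hs, h⟩ := (hMmem m).1 hm
      exact ⟨s, fun _ => ⟨hs, h⟩⟩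
    · obtain ⟨s, hs⟩ := hne
      exact ⟨s, fun h => absurd h hm⟩
  choose rep hrep using hrep
  have hequi : Ev op S (fun Φ => (∀ s ∈ Φ, s ∈ S) ∧ Φ.Nonempty ∧
      ∀ m ∈ M, (1 - ε) * Φ.card ≤ k * ct Φ (fun s => typ s = m)) := by
    refine ⟨M.image rep, ε / 6, 0, ?_, by positivity, fun Φ hΦ _ => ⟨hΦ.sub, hΦ.ne, fun m' hm' => ?_⟩⟩
    · intro g hg
      obtain ⟨m, hm, rfl⟩ := Finset.mem_image.1 hg
      exact (hrep m hm).1
    · have h1 : ∀ m ∈ M, (ct Φ (fun s => typ s = m) : ℝ) ≤ ct Φ (fun s => typ s = m') + ε / 6 * Φ.card := by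
        intro m hm
        have hk' := hMinv m hm m' hm'
        have hg := hrep _ hk'
        set g := rep (mulR (invR m) m') with hgdef
        have h2 : ct Φ (fun s => typ s = m ∧ op s g ∈ Φ) ≤ ct Φ (fun s => typ s = m') := by
          rw [ct_eq, ct_eq]
          refine Finset.card_le_card_of_injOn (fun s => op s g) ?_ ?_
          · intro s hs
            rw [Finset.mem_coe, Finset.mem_filter] at hs ⊢
            refine ⟨hs.2.2, ?_⟩
            show typ (op s g) = m'
            rw [htyp, hs.2.1, hg.2]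
            exact mul_inv_mul m m' (hMbij m hm)
          · intro s hs s' hs' h
            rw [Finset.mem_coe, Finset.mem_filter] at hs hs'
            exact hcan s (hΦ.sub s hs.1) s' (hΦ.sub s' hs'.1) g hg.1 h
        have h3 := ct_add Φ (fun s => typ s = m) (fun s => op s g ∈ Φ)
        have h4 := hΦ.inv g (Finset.mem_image.2 ⟨_, hk', rfl⟩)
        have h5 : (ct Φ (fun s => typ s = m) : ℝ) ≤
            ((ct Φ (fun s => typ s = m') + ct Φ (fun s => op s g ∉ Φ) : ℕ) : ℝ) := by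
          exact_mod_cast h3.trans (Nat.add_le_add_right h2 _)
        push_cast at h5
        linarith
      have h6 : (Φ.card : ℝ) = ∑ m ∈ M, (ct Φ (fun s => typ s = m) : ℝ) := by
        have h7 := ct_fib Φ typ M (fun s hs => (hMmem _).2 ⟨s, hΦ.sub s hs, rfl⟩) (fun _ => True)
        have h8 : ct Φ (fun _ => True) = Φ.card := by rw [ct_eq, Finset.filter_true]
        rw [h8] at h7
        rw [h7]
        push_cast
        refine Finset.sum_congr rfl fun m _ => ?_
        congr 1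
        exact ct_congr Φ fun s _ => by simp
      have h7 := Finset.sum_le_sum h1
      rw [← h6, Finset.sum_const, nsmul_eq_mul, ← hk] at h7
      have h8 : (0 : ℝ) ≤ Φ.card := Nat.cast_nonneg _
      have h9 : k * (ε / 6 * Φ.card) ≤ ε * Φ.card := by
        have : (0 : ℝ) ≤ ε * Φ.card := by positivity
        nlinarith
      linarith
  -- the patterns
  let uu : (Fin 3 → R3) → ℕ → R3 := fun v i => if h : i < 3 then v ⟨i, h⟩ else (0, 0)
  have hpat : Ev op S (fun Φ => ∀ x : (Fin 3 → R3) × Fin 4 × R3, Ex op S typ P (uu x.1) x.2.1 →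
      ¬ Ex op S typ P (fun i => if i < (x.2.1 : ℕ) then uu x.1 i else x.2.2) (x.2.1 + 1) →
      1 / 9 * (Φ.card : ℝ) ≤ ct Φ (fun s => typ s = x.2.2) → (1 - ε) * ct Φ (fun s => typ s = x.2.2) ≤
      ∑ i ∈ range x.2.1, (ct Φ (fun s => mulR (typ s) (uu x.1 i) = x.2.2 ∧ P s) : ℝ)) := by
    refine Ev.all fun x => ?_
    by_cases h1 : Ex op S typ P (uu x.1) x.2.1
    · by_cases h2 : Ex op S typ P (fun i => if i < (x.2.1 : ℕ) then uu x.1 i else x.2.2) (x.2.1 + 1)
      · exact Ev.triv fun Φ _ h => absurd h2 h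
      · exact (dens_of_not op S hcan typ mulR htyp P (uu x.1) x.2.1 h1 x.2.2 h2 ε (1 / 9) hε
          (by norm_num)).mono fun Φ h _ _ => h
    · exact Ev.triv fun Φ h => absurd h h1
  refine (hequi.and hpat).mono fun Φ hΦ => ?_
  obtain ⟨⟨hΦS, hΦne, hequi⟩, hpat⟩ := hΦ
  by_contra hcon
  push Not at hcon
  have hn : (0 : ℝ) < Φ.card := by exact_mod_cast hΦne.card_pos
  obtain ⟨D, hD⟩ : ∃ D : ℝ, D = (1 - ε) * ((1 - ε) * Φ.card) := ⟨_, rfl⟩
  have hε1 : 0 < 1 - ε := by linarith
  have hD0 : 0 < D := by rw [hD]; positivity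
  obtain ⟨l, hl, hl4, hlM, z, hz⟩ := comb M hMne hMbij hMmul (fun m => k * ct Φ (fun s => typ s = m ∧ P s) / D)
    (fun m => by positivity) (by
      have h1 := ct_fib Φ typ M (fun s hs => (hMmem _).2 ⟨s, hΦS s hs, rfl⟩) P
      have h2 : ∑ m ∈ M, k * (ct Φ (fun s => typ s = m ∧ P s) : ℝ) / D = k * ct Φ P / D := by
        rw [h1]
        push_cast
        rw [Finset.mul_sum, Finset.sum_div]
      rw [h2, ← hk, ← mul_div_assoc, div_lt_iff₀ hD0]
      have h3 : 3 * (ct Φ P : ℝ) < (1 - 3 * ε) * Φ.card := by linarith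
      have h4 : (1 - 3 * ε) * Φ.card ≤ D := by
        rw [hD]
        have h5 : (1 - 3 * ε) ≤ (1 - ε) * (1 - ε) := by nlinarith
        calc (1 - 3 * ε) * Φ.card ≤ (1 - ε) * (1 - ε) * Φ.card := mul_le_mul_of_nonneg_right h5 hn.le
          _ = _ := by ring
      have h6 : 0 < k := by linarith
      nlinarith)
    (fun l => Ex op S typ P (fun i => l.getD i (0, 0)) l.length) (ex_zero op S typ P _) (by
      intro l hl hlM c hc hE hsum
      by_contra hnE
      have hgd : ∀ i < l.length, uu (fun i => l.getD i (0, 0)) i = l.getD i (0, 0) := by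
        intro i hi
        show (if h : i < 3 then l.getD i (0, 0) else (0, 0)) = _
        rw [dif_pos (by omega)]
      have h1 := hpat (fun i => l.getD i (0, 0), ⟨l.length, hl⟩, c) (ex_congr (fun i hi => (hgd i hi).symm) hE)
        (fun h => hnE (by
          have h2 := ex_congr (v := fun i => (l ++ [c]).getD i (0, 0)) (r := l.length + 1) (fun i hi => by
            by_cases hil : i < l.length
            · simp only [hil, if_true]
              rw [hgd i hil, List.getD_append _ _ _ _ hil]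
            · simp only [hil, if_false]
              have h3 : i = l.length := by omega
              subst h3
              simp) h
          simpa using h2)) (by
          have h2 := hequi c hc
          show 1 / 9 * (Φ.card : ℝ) ≤ ct Φ (fun s => typ s = c)
          have h3 : (0 : ℝ) ≤ ct Φ (fun s => typ s = c) := Nat.cast_nonneg _
          nlinarith)
      simp only at h1
      have h2 : ∑ i ∈ range l.length, (ct Φ (fun s => mulR (typ s) (uu (fun i => l.getD i (0, 0)) i) = c ∧ P s) : ℝ) =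
          (l.map fun x => (ct Φ (fun s => typ s = mulR c (invR x) ∧ P s) : ℝ)).sum := by
        rw [← Fin.sum_univ_eq_sum_range
          (fun i => (ct Φ (fun s => mulR (typ s) (uu (fun i => l.getD i (0, 0)) i) = c ∧ P s) : ℝ)) l.length]
        rw [← List.sum_ofFn]
        congr 1
        refine List.ext_getElem (by simp) fun i hi1 hi2 => ?_
        have hi : i < l.length := by simpa using hi1
        rw [List.getElem_ofFn, List.getElem_map]
        congr 1
        refine ct_congr Φ fun s _ => ?_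
        have hx : l[i] ∈ l := List.getElem_mem hi
        rw [hgd i hi, List.getD_eq_getElem _ _ hi, mulR_eq_iff _ _ _ (hMbij _ (hlM _ hx))]
      rw [h2] at h1
      have h3 : (l.map fun x => k * (ct Φ (fun s => typ s = mulR c (invR x) ∧ P s) : ℝ) / D).sum =
          k / D * (l.map fun x => (ct Φ (fun s => typ s = mulR c (invR x) ∧ P s) : ℝ)).sum := by
        rw [← List.sum_map_mul_left]
        congr 1
        refine List.map_congr_left fun x _ => ?_
        ring
      rw [h3] at hsum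
      have h4 := hequi c hc
      have h5 : D ≤ k * (l.map fun x => (ct Φ (fun s => typ s = mulR c (invR x) ∧ P s) : ℝ)).sum := by
        rw [hD]
        have h6 := mul_le_mul_of_nonneg_left h4 hε1.le
        have h7 := mul_le_mul_of_nonneg_left h1 (by linarith : (0 : ℝ) ≤ k)
        linarith
      rw [div_mul_eq_mul_div, div_lt_one hD0] at hsum
      linarith)
  refine hno (fun i => l.getD i (0, 0)) ⟨z, fun i hi => ?_⟩ (by rw [← hl4]; exact hl)
  rw [List.getD_eq_getElem _ _ (by omega)]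
  exact hz _ (List.getElem_mem _)

/-- **some element of `S` is constant on `F_3`** -/
theorem third_const (op : α → α → α) (S : Set α)
    (hcan : ∀ s ∈ S, ∀ s' ∈ S, ∀ g ∈ S, op s g = op s' g → s = s')
    (typ : α → Bool) (htyp : ∀ s t, typ (op s t) = (typ s || typ t)) (s₀ : α) (hs₀ : s₀ ∈ S)
    (hs₀t : typ s₀ = true) (P : α → Prop) (hno : ¬ Ex op S typ P (fun _ => true) 4) (ε : ℝ) (hε : 0 < ε) :
    Ev op S (fun Φ => (1 / 3 - ε) * Φ.card ≤ ct Φ P) := by
  classical
  by_cases hε3 : 1 / 3 ≤ ε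
  · refine Ev.triv fun Φ => ?_
    have h1 : (0 : ℝ) ≤ Φ.card := Nat.cast_nonneg _
    have h2 : (0 : ℝ) ≤ ct Φ P := Nat.cast_nonneg _
    nlinarith
  push Not at hε3
  obtain ⟨r, hr4, hr, hr'⟩ : ∃ r < 4, Ex op S typ P (fun _ => true) r ∧ ¬ Ex op S typ P (fun _ => true) (r + 1) := by
    by_contra hcon
    push Not at hcon
    have h1 := hcon 0 (by norm_num) (ex_zero op S typ P _)
    have h2 := hcon 1 (by norm_num) h1
    have h3 := hcon 2 (by norm_num) h2
    exact hno (hcon 3 (by norm_num) h3)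
  have h1 := dens_of_not op S hcan typ (fun a b => a || b) htyp P (fun _ => true) r hr true (fun h =>
    hr' (ex_congr (fun i hi => by simp) h)) ε (1 / 2) hε (by norm_num)
  have h2 : Ev op S (fun Φ => (1 - ε) * (Φ.card : ℝ) ≤ ct Φ (fun s => typ s = true)) := by
    refine ⟨{s₀}, ε, 0, fun g hg => by rw [Finset.mem_singleton.1 hg]; exact hs₀, hε, fun Φ hΦ _ => ?_⟩
    have h3 := ct_not op S hcan _ ε Φ hΦ s₀ hs₀
    have h4 := hΦ.inv s₀ (Finset.mem_singleton_self _)
    have h5 : Φ.card ≤ ct Φ (fun s => typ s = true) + ct Φ (fun y => ¬ ∃ s ∈ Φ, y = op s s₀) := by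
      have h6 : ct Φ (fun _ => True) = Φ.card := by rw [ct_eq, Finset.filter_true]
      rw [← h6]
      refine (ct_mono (Q := fun y => typ y = true ∨ ¬ ∃ s ∈ Φ, y = op s s₀) Φ fun y _ _ => ?_).trans
        (ct_or _ _ _)
      by_cases h : ∃ s ∈ Φ, y = op s s₀
      · left
        obtain ⟨s, _, rfl⟩ := h
        rw [htyp, hs₀t, Bool.or_true]
      · exact Or.inr h
    have h6 : (Φ.card : ℝ) ≤ ((ct Φ (fun s => typ s = true) + ct Φ (fun s => op s s₀ ∉ Φ) : ℕ) : ℝ) := by
      exact_mod_cast h5.trans (Nat.add_le_add_left h3 _)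
    push_cast at h6
    linarith
  refine (h1.and h2).mono fun Φ hΦ => ?_
  obtain ⟨h1, h2⟩ := hΦ
  have hn : (0 : ℝ) ≤ Φ.card := Nat.cast_nonneg _
  have h3 := h1 (by nlinarith)
  have h4 : ∑ i ∈ range r, (ct Φ (fun s => (typ s || true) = true ∧ P s) : ℝ) = r * ct Φ P := by
    rw [Finset.sum_const, Finset.card_range, nsmul_eq_mul]
    congr 2
    exact ct_congr Φ fun s _ => by simp
  rw [h4] at h3
  have h5 : (0 : ℝ) ≤ ct Φ P := Nat.cast_nonneg _
  have h6 : (r : ℝ) ≤ 3 := by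
    have : r ≤ 3 := by omega
    exact_mod_cast this
  have h7 : (1 - ε) * ((1 - ε) * (Φ.card : ℝ)) ≤ (1 - ε) * ct Φ (fun s => typ s = true) :=
    mul_le_mul_of_nonneg_left h2 (by linarith)
  have h8 : (r : ℝ) * ct Φ P ≤ 3 * ct Φ P := mul_le_mul_of_nonneg_right h6 h5
  have h9 : (1 - 3 * ε) * (Φ.card : ℝ) ≤ (1 - ε) * ((1 - ε) * (Φ.card : ℝ)) := by
    rw [← mul_assoc]
    exact mul_le_mul_of_nonneg_right (by nlinarith) hn
  linarith

end Pool.Agent.AmS
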