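import Mathlib

/-! AMENABLE SEMIGROUPS (helper35): the greedy construction of groups of elements `t` of a right cancellative
semigroup such that all ratios of elements of different groups lie outside of a set `P`; abstract form. -/

set_option autoImplicit false

namespace Pool.Agent.AmS

open Finset

variable {α R : Type} [DecidableEq α]

open Classical in
/-- the number of elements of `Φ` with the property `P` -/
noncomputable def ct (Φ : Finset α) (P : α → Prop) : ℕ := (Φ.filter P).card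

theorem ct_eq (Φ : Finset α) (P : α → Prop) [DecidablePred P] : ct Φ P = (Φ.filter P).card := by
  unfold ct
  congr

theorem ct_mono {P Q : α → Prop} (Φ : Finset α) (h : ∀ a ∈ Φ, P a → Q a) : ct Φ P ≤ ct Φ Q := by
  classical
  rw [ct_eq, ct_eq]
  refine Finset.card_le_card fun a ha => ?_
  rw [Finset.mem_filter] at ha ⊢
  exact ⟨ha.1, h a ha.1 ha.2⟩

theorem ct_congr {P Q : α → Prop} (Φ : Finset α) (h : ∀ a ∈ Φ, (P a ↔ Q a)) : ct Φ P = ct Φ Q :=
  le_antisymm (ct_mono Φ fun a ha => (h a ha).1) (ct_mono Φ fun a ha => (h a ha).2)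

theorem ct_le (Φ : Finset α) (P : α → Prop) : ct Φ P ≤ Φ.card := by
  classical
  rw [ct_eq]
  exact Finset.card_filter_le _ _

theorem ct_or (P Q : α → Prop) (Φ : Finset α) : ct Φ (fun a => P a ∨ Q a) ≤ ct Φ P + ct Φ Q := by
  classical
  rw [ct_eq, ct_eq, ct_eq, Finset.filter_or]
  exact Finset.card_union_le _ _

theorem ct_inj {P Q : α → Prop} (Φ : Finset α) (f : α → α) (h : ∀ a ∈ Φ, P a → f a ∈ Φ ∧ Q (f a))
    (hf : ∀ a ∈ Φ, ∀ b ∈ Φ, f a = f b → a = b) : ct Φ P ≤ ct Φ Q := by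
  classical
  rw [ct_eq, ct_eq]
  refine Finset.card_le_card_of_injOn f ?_ ?_
  · intro a ha
    rw [Finset.mem_coe, Finset.mem_filter] at ha ⊢
    exact h a ha.1 ha.2
  · intro a ha b hb hab
    rw [Finset.mem_coe, Finset.mem_filter] at ha hb
    exact hf a ha.1 b hb.1 hab

/-- `Φ` is a finite nonempty subset of `S`, invariant up to `δ` under right multiplication by the elements of `F` -/
structure Inv (op : α → α → α) (S : Set α) (F : Finset α) (δ : ℝ) (Φ : Finset α) : Prop where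
  sub : ∀ s ∈ Φ, s ∈ S
  ne : Φ.Nonempty
  inv : ∀ g ∈ F, (ct Φ (fun s => op s g ∉ Φ) : ℝ) ≤ δ * Φ.card

/-- elements of `Φ` which are not of the form `s t`, `s ∈ Φ` -/
theorem ct_not (op : α → α → α) (S : Set α)
    (hcan : ∀ s ∈ S, ∀ s' ∈ S, ∀ g ∈ S, op s g = op s' g → s = s') (F : Finset α) (δ : ℝ) (Φ : Finset α)
    (hΦ : Inv op S F δ Φ) (t : α) (ht : t ∈ S) :
    ct Φ (fun y => ¬ ∃ s ∈ Φ, y = op s t) ≤ ct Φ (fun s => op s t ∉ Φ) := by
  classical
  rw [ct_eq, ct_eq]
  have h1 : (Φ.filter fun s => op s t ∈ Φ).card ≤ (Φ.filter fun y => ∃ s ∈ Φ, y = op s t).card := by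
    refine Finset.card_le_card_of_injOn (fun s => op s t) ?_ ?_
    · intro s hs
      rw [Finset.mem_coe, Finset.mem_filter] at hs ⊢
      exact ⟨hs.2, s, hs.1, rfl⟩
    · intro s hs s' hs' h
      rw [Finset.mem_coe, Finset.mem_filter] at hs hs'
      exact hcan s (hΦ.sub s hs.1) s' (hΦ.sub s' hs'.1) t ht h
  have h2 := Finset.card_filter_add_card_filter_not (s := Φ) (fun s => op s t ∈ Φ)
  have h3 := Finset.card_filter_add_card_filter_not (s := Φ) (fun y => ∃ s ∈ Φ, y = op s t)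
  omega

/-- the greedy step: `r` groups of elements, one more group of class `c` -/
theorem step (op : α → α → α) (S : Set α)
    (hcan : ∀ s ∈ S, ∀ s' ∈ S, ∀ g ∈ S, op s g = op s' g → s = s')
    (typ : α → R) (mul : R → R → R) (htyp : ∀ s t, typ (op s t) = mul (typ s) (typ t))
    (P : α → Prop) (r : ℕ) (T : ℕ → Finset α) (w : ℕ → R) (c : R)
    (hT : ∀ i < r, (T i).Nonempty) (hTS : ∀ i < r, ∀ t ∈ T i, t ∈ S) (hcl : ∀ i < r, ∀ t ∈ T i, typ t = w i)
    (ε κ : ℝ) (hε : 0 < ε) (hε1 : ε ≤ 1) (hκ : 0 < κ)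
    (hbad : ∀ (F : Finset α) (δ : ℝ) (N : ℕ), (∀ g ∈ F, g ∈ S) → 0 < δ → ∃ Φ : Finset α, Inv op S F δ Φ ∧
      N ≤ Φ.card ∧ κ * Φ.card ≤ ct Φ (fun s => typ s = c) ∧
      ∑ i ∈ range r, (ct Φ (fun s => mul (typ s) (w i) = c ∧ P s) : ℝ) ≤ (1 - ε) * ct Φ (fun s => typ s = c))
    (n : ℕ) (hn : 0 < n) :
    ∃ Y : Finset α, Y.card = n ∧ (∀ y ∈ Y, y ∈ S) ∧ (∀ y ∈ Y, typ y = c) ∧
      ∃ T' : ℕ → Finset α, ∀ i < r, T' i ⊆ T i ∧ ε / 2 * (T i).card ≤ ((T' i).card : ℝ) ∧
        ∀ t ∈ T' i, ∀ y ∈ Y, ∃ s ∈ S, y = op s t ∧ ¬ P s := by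
  classical
  let B : α → α → Prop := fun t y => ¬ ∃ s ∈ S, y = op s t ∧ ¬ P s
  let Sg : Finset (Σ _ : ℕ, α) := (range r).sigma T
  obtain ⟨K, hK⟩ : ∃ K : ℕ, K = (Sg.powerset).card := ⟨_, rfl⟩
  obtain ⟨δ, hδ⟩ : ∃ δ : ℝ, δ = ε * κ / (4 * (r + 1)) := ⟨_, rfl⟩
  have hr1 : (0 : ℝ) < 4 * ((r : ℝ) + 1) := by positivity
  have hδ0 : 0 < δ := by rw [hδ]; positivity
  obtain ⟨N, hN⟩ := exists_nat_gt ((K * n : ℝ) * (4 / (ε * κ)))
  obtain ⟨Φ, hΦ, hΦN, hκΦ, hcnt⟩ := hbad ((range r).biUnion T) δ N (by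
    intro g hg
    obtain ⟨i, hi, hgi⟩ := Finset.mem_biUnion.1 hg
    exact hTS i (Finset.mem_range.1 hi) g hgi) hδ0
  set I : Finset α := Φ.filter fun y => typ y = c with hI
  have hIct : ct Φ (fun s => typ s = c) = I.card := ct_eq _ _
  rw [hIct] at hκΦ hcnt
  let W : α → ℝ := fun y => ∑ i ∈ range r, (((T i).filter fun t => B t y).card : ℝ) / (T i).card
  have hcardT : ∀ i < r, (0 : ℝ) < (T i).card := fun i hi => by exact_mod_cast (hT i hi).card_pos
  -- the average
  have hone : ∀ i < r, ∀ t ∈ T i, ((I.filter fun y => B t y).card : ℝ) ≤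
      (ct Φ (fun s => mul (typ s) (w i) = c ∧ P s) : ℝ) + δ * Φ.card := by
    intro i hi t ht
    have htS := hTS i hi t ht
    have h1 : (I.filter fun y => B t y).card ≤
        ct Φ (fun y => (∃ s ∈ Φ, y = op s t ∧ mul (typ s) (w i) = c ∧ P s) ∨ ¬ ∃ s ∈ Φ, y = op s t) := by
      rw [ct_eq]
      refine Finset.card_le_card fun y hy => ?_
      rw [hI, Finset.mem_filter, Finset.mem_filter] at hy
      rw [Finset.mem_filter]
      refine ⟨hy.1.1, ?_⟩
      by_cases h : ∃ s ∈ Φ, y = op s t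
      · left
        obtain ⟨s, hs, hys⟩ := h
        refine ⟨s, hs, hys, ?_, ?_⟩
        · rw [← hcl i hi t ht, ← htyp, ← hys]
          exact hy.1.2
        · by_contra hP
          exact hy.2 ⟨s, hΦ.sub s hs, hys, hP⟩
      · exact Or.inr h
    have h2 := h1.trans (ct_or _ _ _)
    have h3 : ct Φ (fun y => ∃ s ∈ Φ, y = op s t ∧ mul (typ s) (w i) = c ∧ P s) ≤
        ct Φ (fun s => mul (typ s) (w i) = c ∧ P s) := by
      rw [ct_eq, ct_eq]
      refine (Finset.card_le_card (t := (Φ.filter fun s => mul (typ s) (w i) = c ∧ P s).image fun s => op s t)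
        ?_).trans Finset.card_image_le
      intro y hy
      rw [Finset.mem_filter] at hy
      obtain ⟨s, hs, hys, h⟩ := hy.2
      exact Finset.mem_image.2 ⟨s, Finset.mem_filter.2 ⟨hs, h⟩, hys.symm⟩
    have h4 := ct_not op S hcan _ δ Φ hΦ t htS
    have h5 := hΦ.inv t (Finset.mem_biUnion.2 ⟨i, Finset.mem_range.2 hi, ht⟩)
    have h6 : (((I.filter fun y => B t y).card : ℕ) : ℝ) ≤
        ((ct Φ (fun s => mul (typ s) (w i) = c ∧ P s) + ct Φ (fun s => op s t ∉ Φ) : ℕ) : ℝ) := by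
      exact_mod_cast h2.trans (add_le_add h3 h4)
    push_cast at h6
    linarith
  have hΦ0 : (0 : ℝ) ≤ Φ.card := Nat.cast_nonneg _
  have hsumW : ∑ y ∈ I, W y ≤ (1 - ε) * I.card + r * (δ * Φ.card) := by
    have h1 : ∑ y ∈ I, W y = ∑ i ∈ range r, (∑ t ∈ T i, ((I.filter fun y => B t y).card : ℝ)) / (T i).card := by
      show ∑ y ∈ I, ∑ i ∈ range r, (((T i).filter fun t => B t y).card : ℝ) / (T i).card = _
      rw [Finset.sum_comm]
      refine Finset.sum_congr rfl fun i _ => ?_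
      rw [← Finset.sum_div]
      congr 1
      have h2 : ∀ y ∈ I, (((T i).filter fun t => B t y).card : ℝ) = ∑ t ∈ T i, if B t y then 1 else 0 := by
        intro y _
        rw [Finset.card_filter]
        push_cast
        rfl
      rw [Finset.sum_congr rfl h2, Finset.sum_comm]
      refine Finset.sum_congr rfl fun t _ => ?_
      rw [Finset.card_filter]
      push_cast
      rfl
    rw [h1]
    refine (Finset.sum_le_sum (g := fun i =>
      (ct Φ (fun s => mul (typ s) (w i) = c ∧ P s) : ℝ) + δ * Φ.card) fun i hi => ?_).trans ?_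
    · rw [Finset.mem_range] at hi
      rw [div_le_iff₀ (hcardT i hi)]
      have h3 := Finset.sum_le_sum fun t ht => hone i hi t ht
      refine h3.trans ?_
      rw [Finset.sum_const, nsmul_eq_mul, mul_comm]
    · rw [Finset.sum_add_distrib, Finset.sum_const, Finset.card_range, nsmul_eq_mul]
      exact add_le_add hcnt le_rfl
  -- many good `y`
  set J : Finset α := I.filter fun y => W y ≤ 1 - ε / 2 with hJ
  have hW0 : ∀ y, 0 ≤ W y := fun y => Finset.sum_nonneg fun i _ => by positivity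
  have hJcard : (K * n : ℝ) ≤ J.card := by
    have h1 : (1 - ε / 2) * (I.card - J.card : ℝ) ≤ ∑ y ∈ I, W y := by
      have h2 : (I.card - J.card : ℝ) = ((I.filter fun y => ¬ W y ≤ 1 - ε / 2).card : ℝ) := by
        have h3 := Finset.card_filter_add_card_filter_not (s := I) (fun y => W y ≤ 1 - ε / 2)
        rw [← hJ] at h3
        have h4 : (J.card : ℝ) + ((I.filter fun y => ¬ W y ≤ 1 - ε / 2).card : ℝ) = I.card := by exact_mod_cast h3
        linarith
      rw [h2]
      calc (1 - ε / 2) * ((I.filter fun y => ¬ W y ≤ 1 - ε / 2).card : ℝ)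
          = ∑ y ∈ I.filter (fun y => ¬ W y ≤ 1 - ε / 2), (1 - ε / 2) := by
            rw [Finset.sum_const, nsmul_eq_mul, mul_comm]
        _ ≤ ∑ y ∈ I.filter (fun y => ¬ W y ≤ 1 - ε / 2), W y :=
            Finset.sum_le_sum fun y hy => (not_le.1 (Finset.mem_filter.1 hy).2).le
        _ ≤ ∑ y ∈ I, W y := Finset.sum_le_sum_of_subset_of_nonneg (Finset.filter_subset _ _) fun y _ _ => hW0 y
    have h3 : (r : ℝ) * (δ * Φ.card) ≤ ε / 4 * I.card := by
      have h4 : (r : ℝ) * δ ≤ ε / 4 * κ := by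
        rw [hδ, mul_div_assoc', div_le_iff₀ hr1]
        have h5 : (0 : ℝ) ≤ ε * κ := by positivity
        nlinarith
      calc (r : ℝ) * (δ * Φ.card) = (r * δ) * Φ.card := by ring
        _ ≤ (ε / 4 * κ) * Φ.card := mul_le_mul_of_nonneg_right h4 hΦ0
        _ = ε / 4 * (κ * Φ.card) := by ring
        _ ≤ ε / 4 * I.card := mul_le_mul_of_nonneg_left hκΦ (by positivity)
    have h6 : (0 : ℝ) ≤ J.card := Nat.cast_nonneg _
    have h7 : ε / 4 * I.card ≤ J.card := by nlinarith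
    have h8 : (K * n : ℝ) ≤ ε / 4 * (κ * Φ.card) := by
      have h9 : (N : ℝ) ≤ Φ.card := by exact_mod_cast hΦN
      have h10 : (K * n : ℝ) * (4 / (ε * κ)) ≤ Φ.card := hN.le.trans h9
      have h11 : (0 : ℝ) < ε * κ / 4 := by positivity
      have h12 := mul_le_mul_of_nonneg_left h10 h11.le
      have h13 : ε * κ / 4 * ((K * n : ℝ) * (4 / (ε * κ))) = K * n := by
        field_simp
      rw [h13] at h12
      linarith
    have h14 : ε / 4 * (κ * Φ.card) ≤ ε / 4 * I.card := mul_le_mul_of_nonneg_left hκΦ (by positivity)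
    linarith
  -- pigeonhole
  have hpig : (Sg.powerset).card * n ≤ J.card := by
    rw [← hK]
    exact_mod_cast hJcard
  let pat : α → Finset (Σ _ : ℕ, α) := fun y => Sg.filter fun p => ¬ B p.2 y
  have hmaps : ∀ y ∈ J, pat y ∈ Sg.powerset := by
    intro y hy
    rw [Finset.mem_powerset]
    exact Finset.filter_subset _ _
  obtain ⟨U, hρS, hfib⟩ := Finset.exists_le_card_fiber_of_mul_le_card_of_maps_to hmaps
    ⟨∅, Finset.empty_mem_powerset _⟩ hpig
  obtain ⟨Y, hYsub, hYcard⟩ := Finset.exists_subset_card_eq hfib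
  have hY : ∀ y ∈ Y, y ∈ Φ ∧ typ y = c ∧ W y ≤ 1 - ε / 2 ∧ (Sg.filter fun p => ¬ B p.2 y) = U := by
    intro y hy
    have h1 := hYsub hy
    rw [Finset.mem_filter, hJ, Finset.mem_filter, hI, Finset.mem_filter] at h1
    exact ⟨h1.1.1.1, h1.1.1.2, h1.1.2, h1.2⟩
  refine ⟨Y, hYcard, fun y hy => hΦ.sub y (hY y hy).1, fun y hy => (hY y hy).2.1,
    fun i => (T i).filter fun t => (⟨i, t⟩ : Σ _ : ℕ, α) ∈ U, ?_⟩
  intro i hi
  refine ⟨Finset.filter_subset _ _, ?_, ?_⟩
  · obtain ⟨y, hy⟩ : Y.Nonempty := by rw [← Finset.card_pos, hYcard]; exact hn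
    have h1 := hY y hy
    have h2 : ((T i).filter fun t => (⟨i, t⟩ : Σ _ : ℕ, α) ∈ U) = (T i).filter fun t => ¬ B t y := by
      refine Finset.filter_congr fun t ht => ?_
      rw [← h1.2.2.2, Finset.mem_filter]
      constructor
      · intro h; exact h.2
      · intro h; exact ⟨Finset.mem_sigma.2 ⟨Finset.mem_range.2 hi, ht⟩, h⟩
    show ε / 2 * ((T i).card : ℝ) ≤ (((T i).filter fun t => (⟨i, t⟩ : Σ _ : ℕ, α) ∈ U).card : ℝ)
    rw [h2]
    have h3 := Finset.card_filter_add_card_filter_not (s := T i) (fun t => B t y)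
    have h4 : (((T i).filter fun t => B t y).card : ℝ) / (T i).card ≤ 1 - ε / 2 := by
      refine le_trans ?_ h1.2.2.1
      exact Finset.single_le_sum (f := fun i => (((T i).filter fun t => B t y).card : ℝ) / (T i).card)
        (fun i _ => by positivity) (Finset.mem_range.2 hi)
    rw [div_le_iff₀ (hcardT i hi)] at h4
    have h5 : (((T i).filter fun t => B t y).card : ℝ) + (((T i).filter fun t => ¬ B t y).card : ℝ) =
      (T i).card := by exact_mod_cast h3
    linarith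
  · intro t ht y hy
    have h1 := hY y hy
    rw [Finset.mem_filter, ← h1.2.2.2, Finset.mem_filter] at ht
    have h2 : ¬ B t y := ht.2.2
    exact not_not.1 h2

/-- `r` groups of at least `n` elements, all ratios between different groups outside of `P` -/
structure Chn (op : α → α → α) (S : Set α) (typ : α → R) (P : α → Prop) (u : ℕ → R) (r n : ℕ)
    (T : ℕ → Finset α) : Prop where
  size : ∀ i < r, n ≤ (T i).card
  sub : ∀ i < r, ∀ t ∈ T i, t ∈ S
  cls : ∀ i < r, ∀ t ∈ T i, typ t = u i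
  bad : ∀ i j, i < j → j < r → ∀ t ∈ T i, ∀ t' ∈ T j, ∃ s ∈ S, t' = op s t ∧ ¬ P s

/-- arbitrarily large groups with the pattern `u` -/
def Ex (op : α → α → α) (S : Set α) (typ : α → R) (P : α → Prop) (u : ℕ → R) (r : ℕ) : Prop :=
  ∀ n : ℕ, ∃ T, Chn op S typ P u r n T

theorem ex_zero (op : α → α → α) (S : Set α) (typ : α → R) (P : α → Prop) (u : ℕ → R) :
    Ex op S typ P u 0 := fun n =>
  ⟨fun _ => ∅, fun i hi => absurd hi (Nat.not_lt_zero i), fun i hi => absurd hi (Nat.not_lt_zero i),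
    fun i hi => absurd hi (Nat.not_lt_zero i), fun i j _ hj => absurd hj (Nat.not_lt_zero j)⟩

theorem ex_congr {op : α → α → α} {S : Set α} {typ : α → R} {P : α → Prop} {u v : ℕ → R} {r : ℕ}
    (h : ∀ i < r, u i = v i) (hE : Ex op S typ P u r) : Ex op S typ P v r := fun n => by
  obtain ⟨T, hT⟩ := hE n
  exact ⟨T, hT.size, hT.sub, fun i hi t ht => (hT.cls i hi t ht).trans (h i hi), hT.bad⟩

/-- a property of all large sufficiently invariant finite sets -/
def Ev (op : α → α → α) (S : Set α) (p : Finset α → Prop) : Prop :=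
  ∃ (F : Finset α) (δ : ℝ) (N : ℕ), (∀ g ∈ F, g ∈ S) ∧ 0 < δ ∧
    ∀ Φ : Finset α, Inv op S F δ Φ → N ≤ Φ.card → p Φ

theorem Inv.mono {op : α → α → α} {S : Set α} {F G : Finset α} {δ ε : ℝ} {Φ : Finset α}
    (h : Inv op S G δ Φ) (hFG : F ⊆ G) (hδ : δ ≤ ε) : Inv op S F ε Φ :=
  ⟨h.sub, h.ne, fun g hg => (h.inv g (hFG hg)).trans (mul_le_mul_of_nonneg_right hδ (Nat.cast_nonneg _))⟩

theorem Ev.mono {op : α → α → α} {S : Set α} {p q : Finset α → Prop} (h : ∀ Φ, p Φ → q Φ)
    (hp : Ev op S p) : Ev op S q := by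
  obtain ⟨F, δ, N, hF, hδ, H⟩ := hp
  exact ⟨F, δ, N, hF, hδ, fun Φ h1 h2 => h Φ (H Φ h1 h2)⟩

theorem Ev.all {op : α → α → α} {S : Set α} {ι : Type} [Finite ι] {p : ι → Finset α → Prop}
    (h : ∀ i, Ev op S (p i)) : Ev op S (fun Φ => ∀ i, p i Φ) := by
  classical
  have := Fintype.ofFinite ι
  choose F δ N hF hδ H using h
  obtain ⟨δ₀, hδ₀, hle⟩ : ∃ δ₀ : ℝ, 0 < δ₀ ∧ ∀ i, δ₀ ≤ δ i := by
    rcases isEmpty_or_nonempty ι with h | h
    · exact ⟨1, one_pos, fun i => (h.false i).elim⟩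
    · obtain ⟨i, hi⟩ := Finite.exists_min δ
      exact ⟨δ i, hδ i, hi⟩
  refine ⟨Finset.univ.biUnion F, δ₀, ∑ i, N i, ?_, hδ₀, fun Φ h1 h2 i => H i Φ (h1.mono ?_ (hle i)) ?_⟩
  · intro g hg
    obtain ⟨i, _, hi⟩ := Finset.mem_biUnion.1 hg
    exact hF i g hi
  · exact Finset.subset_biUnion_of_mem F (Finset.mem_univ i)
  · exact (Finset.single_le_sum (f := N) (fun _ _ => Nat.zero_le _) (Finset.mem_univ i)).trans h2

theorem Ev.and {op : α → α → α} {S : Set α} {p q : Finset α → Prop} (hp : Ev op S p) (hq : Ev op S q) :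
    Ev op S (fun Φ => p Φ ∧ q Φ) := by
  have h := Ev.all (op := op) (S := S) (ι := Bool) (p := fun b => if b then p else q) (fun b => by
    cases b
    · exact hq
    · exact hp)
  exact h.mono fun Φ hΦ => ⟨hΦ true, hΦ false⟩

/-- the greedy step for `Ex` -/
theorem ex_succ (op : α → α → α) (S : Set α)
    (hcan : ∀ s ∈ S, ∀ s' ∈ S, ∀ g ∈ S, op s g = op s' g → s = s')
    (typ : α → R) (mul : R → R → R) (htyp : ∀ s t, typ (op s t) = mul (typ s) (typ t))
    (P : α → Prop) (u : ℕ → R) (r : ℕ) (hr : Ex op S typ P u r) (c : R)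
    (ε κ : ℝ) (hε : 0 < ε) (hε1 : ε ≤ 1) (hκ : 0 < κ)
    (hbad : ∀ (F : Finset α) (δ : ℝ) (N : ℕ), (∀ g ∈ F, g ∈ S) → 0 < δ → ∃ Φ : Finset α, Inv op S F δ Φ ∧
      N ≤ Φ.card ∧ κ * Φ.card ≤ ct Φ (fun s => typ s = c) ∧
      ∑ i ∈ range r, (ct Φ (fun s => mul (typ s) (u i) = c ∧ P s) : ℝ) ≤ (1 - ε) * ct Φ (fun s => typ s = c)) :
    Ex op S typ P (fun i => if i < r then u i else c) (r + 1) := by
  have key : ∀ n : ℕ, 0 < n → ∃ T, Chn op S typ P (fun i => if i < r then u i else c) (r + 1) n T := by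
    intro n hn
    obtain ⟨N, hN⟩ := exists_nat_gt (2 * n / ε)
    have hnN : (n : ℝ) ≤ ε / 2 * N := by
      rw [div_lt_iff₀ hε] at hN
      linarith
    have hNpos : 0 < N := by
      rcases Nat.eq_zero_or_pos N with h | h
      · rw [h] at hnN
        have : (0 : ℝ) < n := by exact_mod_cast hn
        simp only [Nat.cast_zero, mul_zero] at hnN
        linarith
      · exact h
    obtain ⟨T, hT⟩ := hr N
    obtain ⟨Y, hYcard, hY0, hYc, T', hT'⟩ := step op S hcan typ mul htyp P r T u c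
      (fun i hi => by rw [← Finset.card_pos]; exact lt_of_lt_of_le hNpos (hT.size i hi))
      hT.sub hT.cls ε κ hε hε1 hκ hbad n hn
    refine ⟨fun i => if i < r then T' i else Y, ?_, ?_, ?_, ?_⟩
    · intro i hi
      by_cases hir : i < r
      · simp only [hir, if_true]
        have h1 := (hT' i hir).2.1
        have h2 : (N : ℝ) ≤ (T i).card := by exact_mod_cast hT.size i hir
        have h3 : (n : ℝ) ≤ (T' i).card := by
          refine hnN.trans (le_trans ?_ h1)
          gcongr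
        exact_mod_cast h3
      · simp only [hir, if_false]
        rw [hYcard]
    · intro i hi t ht
      by_cases hir : i < r
      · simp only [hir, if_true] at ht
        exact hT.sub i hir t ((hT' i hir).1 ht)
      · simp only [hir, if_false] at ht
        exact hY0 t ht
    · intro i hi t ht
      by_cases hir : i < r
      · simp only [hir, if_true] at ht ⊢
        exact hT.cls i hir t ((hT' i hir).1 ht)
      · simp only [hir, if_false] at ht ⊢
        exact hYc t ht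
    · intro i j hij hj t ht t' ht'
      have hir : i < r := by omega
      simp only [hir, if_true] at ht
      by_cases hjr : j < r
      · simp only [hjr, if_true] at ht'
        exact hT.bad i j hij hjr t ((hT' i hir).1 ht) t' ((hT' j hjr).1 ht')
      · simp only [hjr, if_false] at ht'
        exact (hT' i hir).2.2 t ht t' ht'
  intro n
  obtain ⟨T, hT⟩ := key (n + 1) n.succ_pos
  exact ⟨T, fun i hi => (Nat.le_succ n).trans (hT.size i hi), hT.sub, hT.cls, hT.bad⟩

/-- if a group of class `c` cannot be added, there are many elements of `P` -/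
theorem dens_of_not (op : α → α → α) (S : Set α)
    (hcan : ∀ s ∈ S, ∀ s' ∈ S, ∀ g ∈ S, op s g = op s' g → s = s')
    (typ : α → R) (mul : R → R → R) (htyp : ∀ s t, typ (op s t) = mul (typ s) (typ t))
    (P : α → Prop) (u : ℕ → R) (r : ℕ) (hr : Ex op S typ P u r) (c : R)
    (hno : ¬ Ex op S typ P (fun i => if i < r then u i else c) (r + 1)) (ε κ : ℝ) (hε : 0 < ε) (hκ : 0 < κ) :
    Ev op S (fun Φ => κ * Φ.card ≤ ct Φ (fun s => typ s = c) → (1 - ε) * ct Φ (fun s => typ s = c) ≤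
      ∑ i ∈ range r, (ct Φ (fun s => mul (typ s) (u i) = c ∧ P s) : ℝ)) := by
  by_contra hcon
  unfold Ev at hcon
  push Not at hcon
  apply hno
  refine ex_succ op S hcan typ mul htyp P u r hr c (min ε 1) κ (lt_min hε one_pos) (min_le_right _ _) hκ
    fun F δ N hF hδ => ?_
  obtain ⟨Φ, h1, h2, h3, h⟩ := hcon F δ N hF hδ
  refine ⟨Φ, h1, h2, h3, h.le.trans ?_⟩
  have h4 : (0 : ℝ) ≤ ct Φ (fun s => typ s = c) := Nat.cast_nonneg _
  have h5 := min_le_left ε 1
  nlinarith

end Pool.Agent.AmS
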