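import Pool.Agent.AmS.Greedy
import Pool.Agent.PolD.Greedy2

/-! AMENABLE SEMIGROUPS (helper35): four groups of maps `q ↦ a + q d`, from the theorem on four groups of forms. -/

set_option autoImplicit false

namespace Pool.Agent.AmS

open Finset Pool.Agent.SL

/-- composition of the maps `q ↦ f.1 + f.2 q` -/
def cmp (f g : ℤ × ℕ) : ℤ × ℕ := (f.1 + f.2 * g.1, f.2 * g.2)

/-- the map takes infinitely many primes to primes -/
def GdP (f : ℤ × ℕ) : Prop := {q : ℕ | q.Prime ∧ ∃ p : ℕ, p.Prime ∧ (p : ℤ) = f.1 + q * f.2}.Infinite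

/-- an admissible pair -/
def Adm (f : ℤ × ℕ) : Prop := 0 < f.2 ∧ Int.gcd f.1 f.2 = 1 ∧ 2 ∣ f.1 * f.2

theorem gdP_one : GdP (0, 1) := by
  unfold GdP
  refine Nat.infinite_setOf_prime.mono fun q hq => ⟨hq, q, hq, ?_⟩
  simp

/-- proportional admissible pairs are equal -/
theorem prop_eq (f g : ℤ × ℕ) (hf : Adm f) (hg : Adm g) (h : (f.2 : ℤ) * g.1 = g.2 * f.1) : f = g := by
  have h1 : IsCoprime (f.2 : ℤ) f.1 := ((Int.isCoprime_iff_gcd_eq_one).2 hf.2.1).symm
  have h2 : IsCoprime (g.2 : ℤ) g.1 := ((Int.isCoprime_iff_gcd_eq_one).2 hg.2.1).symm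
  have h3 : (f.2 : ℤ) ∣ g.2 := h1.dvd_of_dvd_mul_right (Dvd.intro _ h)
  have h4 : (g.2 : ℤ) ∣ f.2 := h2.dvd_of_dvd_mul_right (Dvd.intro _ h.symm)
  have h5 : f.2 = g.2 := Nat.dvd_antisymm (by exact_mod_cast h3) (by exact_mod_cast h4)
  have h6 : (f.2 : ℤ) ≠ 0 := by exact_mod_cast hf.1.ne'
  rw [← h5] at h
  exact Prod.ext (mul_left_cancel₀ h6 h).symm h5

theorem int_to_nat' (p : ℕ) (hp : 0 < p) (z : ℤ) (N : ℕ) : ∃ n : ℕ, (p : ℤ) ∣ ((n : ℤ) + N) - z := by
  have hpz : (0 : ℤ) < p := by exact_mod_cast hp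
  refine ⟨((z - N) % p).toNat, ?_⟩
  have h1 : (0 : ℤ) ≤ (z - N) % p := Int.emod_nonneg _ hpz.ne'
  rw [Int.toNat_of_nonneg h1]
  have h2 : (z - N) % p + N - z = -((z - N) - (z - N) % p) := by ring
  rw [h2, dvd_neg]
  exact Int.dvd_self_sub_emod

/-- fewer than `p` admissible pairs miss a residue -/
theorem avoid (p : ℕ) (hp : p.Prime) (I : Finset (ℤ × ℕ)) (hI : ∀ f ∈ I, Adm f) (hr : I.card < p) :
    ∃ z : ℤ, ∀ f ∈ I, ¬ (p : ℤ) ∣ f.1 + f.2 * z := by
  classical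
  obtain ⟨n, hn⟩ := Pool.Agent.PolD.big (I.filter fun f => ¬ p ∣ f.2) p hp
    (lt_of_le_of_lt (Finset.card_filter_le _ _) hr) (fun f => f.2) (fun f => f.1)
    (fun f hf => (Finset.mem_filter.1 hf).2)
  refine ⟨n, fun f hf hd => ?_⟩
  by_cases h : p ∣ f.2
  · have h1 : (p : ℤ) ∣ (f.2 : ℤ) := by exact_mod_cast h
    have h2 : (p : ℤ) ∣ f.1 := (dvd_add_left (Dvd.dvd.mul_right h1 _)).1 hd
    have h3 := Int.dvd_gcd h2 h1
    rw [(hI f hf).2.1] at h3
    exact hp.one_lt.ne' (Nat.dvd_one.mp h3)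
  · refine hn f (Finset.mem_filter.2 ⟨hf, h⟩) ?_
    rw [add_comm]
    exact hd

/-- the prime 2 is harmless -/
theorem avoid_two (f : ℤ × ℕ) (hf : Adm f) : ¬ (2 : ℤ) ∣ f.1 + f.2 * 1 := by
  intro hd
  have h1 := hf.2.2
  rcases Int.prime_two.dvd_or_dvd h1 with h | h
  · have h2 : (2 : ℤ) ∣ (f.2 : ℤ) := by
      have := (dvd_add_right h).1 hd
      simpa using this
    have h3 := Int.dvd_gcd h h2
    rw [hf.2.1] at h3
    exact absurd h3 (by norm_num)
  · have h2 : (2 : ℤ) ∣ f.1 := (dvd_add_left (Dvd.dvd.mul_right h _)).1 hd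
    have h3 := Int.dvd_gcd h2 h
    rw [hf.2.1] at h3
    exact absurd h3 (by norm_num)

/-- no four groups -/
theorem no_four (K : ℕ) (hK : 1 ≤ K) (hD : DHLG 4 (4 * K)) (S : Set (ℤ × ℕ)) (hS : ∀ f ∈ S, Adm f) {R : Type}
    (typ : ℤ × ℕ → R) (u : ℕ → R)
    (h3 : ∀ T : ℕ → Finset (ℤ × ℕ), (∀ i < 4, (T i).Nonempty) → (∀ i < 4, ∀ t ∈ T i, t ∈ S) →
      (∀ i < 4, ∀ t ∈ T i, typ t = u i) →
      (∀ i j, i < j → j < 4 → ∀ t ∈ T i, ∀ t' ∈ T j, ∃ s ∈ S, t' = cmp s t) →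
      ∃ z : ℤ, ∀ i < 4, ∀ t ∈ T i, ¬ (3 : ℤ) ∣ t.1 + t.2 * z) :
    ¬ Ex cmp S typ GdP u 4 := by
  classical
  intro hE
  obtain ⟨Q, hQdef⟩ : ∃ Q : ℕ, Q = (4 * K).factorial := ⟨_, rfl⟩
  have hQ0 : 0 < Q := by rw [hQdef]; exact Nat.factorial_pos _
  have : NeZero Q := ⟨hQ0.ne'⟩
  obtain ⟨T, hT⟩ := hE ((Finset.univ : Finset (ZMod Q × ZMod Q)).card * K)
  -- constant classes modulo `Q`
  have hsub : ∀ g : Fin 4, ∃ (Y : Finset (ℤ × ℕ)) (c : ZMod Q × ZMod Q), Y.card = K ∧ Y ⊆ T g ∧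
      ∀ t ∈ Y, ((t.1 : ZMod Q), (t.2 : ZMod Q)) = c := by
    intro g
    obtain ⟨c, _, hc⟩ := Finset.exists_le_card_fiber_of_mul_le_card_of_maps_to
      (f := fun t : ℤ × ℕ => ((t.1 : ZMod Q), (t.2 : ZMod Q))) (s := T g) (t := Finset.univ) (n := K)
      (fun t _ => Finset.mem_univ _) ⟨0, Finset.mem_univ _⟩ (hT.size g g.2)
    obtain ⟨Y, hYs, hYc⟩ := Finset.exists_subset_card_eq hc
    exact ⟨Y, c, hYc, hYs.trans (Finset.filter_subset _ _), fun t ht => (Finset.mem_filter.1 (hYs ht)).2⟩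
  choose Y c hYc hYT hYcl using hsub
  let F : (g : Fin 4) → Fin K → ℤ × ℕ := fun g i => (((Y g).equivFinOfCardEq (hYc g)).symm i : ℤ × ℕ)
  have hFmem : ∀ g i, F g i ∈ Y g := fun g i => (((Y g).equivFinOfCardEq (hYc g)).symm i).2
  have hFinj : ∀ g i j, F g i = F g j → i = j := fun g i j h =>
    ((Y g).equivFinOfCardEq (hYc g)).symm.injective (Subtype.ext h)
  let e : Fin (4 * K) → Fin 4 × Fin K := fun i => finProdFinEquiv.symm i
  have hein : Function.Injective e := finProdFinEquiv.symm.injective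
  let G : Fin (4 * K) → Fin 4 := fun i => (e i).1
  let τ : Fin (4 * K) → ℤ × ℕ := fun i => F (e i).1 (e i).2
  have hmemY : ∀ i, τ i ∈ Y (e i).1 := fun i => hFmem _ _
  have hmemT : ∀ i, τ i ∈ T (e i).1 := fun i => hYT _ (hmemY i)
  have hmemS : ∀ i, τ i ∈ S := fun i => hT.sub _ (e i).1.isLt _ (hmemT i)
  have hadmτ : ∀ i, Adm (τ i) := fun i => hS _ (hmemS i)
  have hlt : ∀ i j, ∃ s, G i < G j → s ∈ S ∧ τ j = cmp s (τ i) ∧ ¬ GdP s := by
    intro i j
    by_cases hij : G i < G j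
    · obtain ⟨s, hs, h1, h2⟩ := hT.bad (e i).1 (e j).1 hij (e j).1.isLt _ (hmemT i) _ (hmemT j)
      exact ⟨s, fun _ => ⟨hs, h1, h2⟩⟩
    · exact ⟨0, fun h => absurd h hij⟩
  choose ρ hρ using hlt
  have hne : ∀ i j, G i < G j → τ i ≠ τ j := by
    intro i j hij h
    obtain ⟨_, h1, h2⟩ := hρ i j hij
    rw [← h] at h1
    have h3 := congrArg Prod.snd h1
    have h4 := congrArg Prod.fst h1
    simp only [cmp] at h3 h4
    have h5 : (ρ i j).2 = 1 := by
      have h6 := (hadmτ i).1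
      exact Nat.eq_of_mul_eq_mul_right h6 (by rw [one_mul]; exact h3.symm)
    rw [h5, Nat.cast_one, one_mul] at h4
    have h6 : (ρ i j).1 = 0 := by linarith
    exact h2 (by rw [← Prod.mk.eta (p := ρ i j), h5, h6]; exact gdP_one)
  have hinj : ∀ i j, i ≠ j → τ i ≠ τ j := by
    intro i j hij h
    rcases lt_trichotomy (G i) (G j) with h3 | h3 | h3
    · exact hne i j h3 h
    · have h5 : (e i).1 = (e j).1 := h3
      have h4 : F (e i).1 (e i).2 = F (e j).1 (e j).2 := h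
      rw [h5] at h4
      exact hij (hein (Prod.ext h5 (hFinj _ _ _ h4)))
    · exact hne j i h3 h.symm
  -- the constants
  obtain ⟨N0, hN0⟩ : ∃ N0 : ℕ, ∀ i, 0 ≤ ((τ i).2 : ℤ) * N0 + (τ i).1 := by
    refine ⟨∑ i, ((τ i).1).natAbs, fun i => ?_⟩
    have h4 : ((τ i).1).natAbs ≤ ∑ i, ((τ i).1).natAbs :=
      Finset.single_le_sum (f := fun i => ((τ i).1).natAbs) (fun _ _ => Nat.zero_le _)
        (Finset.mem_univ i)
    have h5 : (((τ i).1).natAbs : ℤ) ≤ ((∑ i, ((τ i).1).natAbs : ℕ) : ℤ) := by exact_mod_cast h4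
    have h6 : (1 : ℤ) ≤ ((τ i).2 : ℤ) := by exact_mod_cast (hadmτ i).1
    have h7 : -(((τ i).1).natAbs : ℤ) ≤ (τ i).1 := by omega
    have h8 : (0 : ℤ) ≤ ((∑ i, ((τ i).1).natAbs : ℕ) : ℤ) := by positivity
    nlinarith
  let s : Fin (4 * K) → ℕ := fun i => (τ i).2
  let h : Fin (4 * K) → ℕ := fun i => (((τ i).2 : ℤ) * N0 + (τ i).1).toNat
  have hh : ∀ i, (h i : ℤ) = ((τ i).2 : ℤ) * N0 + (τ i).1 := fun i => Int.toNat_of_nonneg (hN0 i)
  have hval : ∀ i (n : ℕ), ((s i * n + h i : ℕ) : ℤ) = (τ i).1 + (τ i).2 * ((n : ℤ) + N0) := by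
    intro i n
    push_cast
    rw [hh i]
    simp only [s]
    ring
  -- the bounds
  have hB : ∀ i j, ∃ B : ℕ, G i < G j → ∀ q : ℕ, q.Prime →
      (∃ p : ℕ, p.Prime ∧ (p : ℤ) = (ρ i j).1 + q * (ρ i j).2) → q < B := by
    intro i j
    by_cases hij : G i < G j
    · have hfin : {q : ℕ | q.Prime ∧ ∃ p : ℕ, p.Prime ∧ (p : ℤ) = (ρ i j).1 + q * (ρ i j).2}.Finite :=
        Set.not_infinite.mp (hρ i j hij).2.2
      obtain ⟨B, hB⟩ := hfin.bddAbove
      exact ⟨B + 1, fun _ q hq hp => Nat.lt_succ_of_le (hB ⟨hq, hp⟩)⟩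
    · exact ⟨0, fun h => absurd h hij⟩
  choose B hB using hB
  have hadm : ∀ p : ℕ, p.Prime → ∃ n : ℕ, ∀ i, ¬ p ∣ s i * n + h i := by
    intro p hp
    obtain ⟨z, hz⟩ : ∃ z : ℤ, ∀ i, ¬ (p : ℤ) ∣ (τ i).1 + (τ i).2 * z := by
      by_cases hp2 : p = 2
      · subst hp2
        exact ⟨1, fun i => avoid_two _ (hadmτ i)⟩
      by_cases hp3 : p = 3
      · subst hp3
        obtain ⟨z, hz⟩ := h3 (fun g => if hg : g < 4 then Y ⟨g, hg⟩ else ∅)
          (fun i hi => by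
            simp only [hi, dif_pos]
            rw [← Finset.card_pos, hYc]
            exact hK)
          (fun i hi t ht => by
            simp only [hi, dif_pos] at ht
            exact hT.sub i hi t (hYT _ ht))
          (fun i hi t ht => by
            simp only [hi, dif_pos] at ht
            exact hT.cls i hi t (hYT _ ht))
          (fun i j hij hj t ht t' ht' => by
            simp only [hj, (by omega : i < 4), dif_pos] at ht ht'
            obtain ⟨s, hs, h1, _⟩ := hT.bad i j hij hj t (hYT _ ht) t' (hYT _ ht')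
            exact ⟨s, hs, h1⟩)
        refine ⟨z, fun i => hz _ (e i).1.isLt _ ?_⟩
        simp only [(e i).1.isLt, dif_pos]
        exact hmemY i
      by_cases hpK : p ≤ 4 * K
      · -- constant classes
        have hpQ : p ∣ Q := by rw [hQdef]; exact (Nat.Prime.dvd_factorial hp).2 hpK
        have hp5 : 4 < p := by
          have h6 := hp.two_le
          have h7 : p ≠ 4 := by rintro rfl; exact absurd hp (by norm_num)
          omega
        have hF0 : ∀ g, F g ⟨0, hK⟩ ∈ S := fun g => hT.sub _ g.isLt _ (hYT _ (hFmem g _))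
        obtain ⟨z, hz⟩ := avoid p hp ((Finset.univ : Finset (Fin 4)).image fun g => F g ⟨0, hK⟩)
          (fun f hf => by
            obtain ⟨g, _, rfl⟩ := Finset.mem_image.1 hf
            exact hS _ (hF0 g))
          (lt_of_le_of_lt Finset.card_image_le (by rw [Finset.card_univ, Fintype.card_fin]; exact hp5))
        refine ⟨z, fun i hd => hz (F (e i).1 ⟨0, hK⟩) (Finset.mem_image_of_mem _ (Finset.mem_univ _)) ?_⟩
        have h4 := (hYcl _ _ (hmemY i)).trans (hYcl _ _ (hFmem (e i).1 ⟨0, hK⟩)).symm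
        have h5 := congrArg Prod.fst h4
        have h6 := congrArg Prod.snd h4
        simp only at h5 h6
        have h7 : (p : ℤ) ∣ (F (e i).1 ⟨0, hK⟩).1 - (τ i).1 := by
          have := (ZMod.intCast_eq_intCast_iff_dvd_sub _ _ Q).1 h5
          exact (by exact_mod_cast hpQ : (p : ℤ) ∣ (Q : ℤ)).trans this
        have h8 : (p : ℤ) ∣ ((F (e i).1 ⟨0, hK⟩).2 : ℤ) - ((τ i).2 : ℤ) := by
          have h9 : (((τ i).2 : ℤ) : ZMod Q) = (((F (e i).1 ⟨0, hK⟩).2 : ℤ) : ZMod Q) := by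
            push_cast
            exact h6
          have := (ZMod.intCast_eq_intCast_iff_dvd_sub _ _ Q).1 h9
          exact (by exact_mod_cast hpQ : (p : ℤ) ∣ (Q : ℤ)).trans this
        have h9 := dvd_add (dvd_add hd h7) (Dvd.dvd.mul_right h8 z)
        have h10 : (τ i).1 + (τ i).2 * z + ((F (e i).1 ⟨0, hK⟩).1 - (τ i).1) +
            (((F (e i).1 ⟨0, hK⟩).2 : ℤ) - ((τ i).2 : ℤ)) * z =
            (F (e i).1 ⟨0, hK⟩).1 + (F (e i).1 ⟨0, hK⟩).2 * z := by ring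
        rwa [h10] at h9
      · obtain ⟨z, hz⟩ := avoid p hp ((Finset.univ : Finset (Fin (4 * K))).image τ)
          (fun f hf => by
            obtain ⟨i, _, rfl⟩ := Finset.mem_image.1 hf
            exact hadmτ i)
          (lt_of_le_of_lt Finset.card_image_le (by rw [Finset.card_univ, Fintype.card_fin]; omega))
        exact ⟨z, fun i => hz _ (Finset.mem_image_of_mem _ (Finset.mem_univ _))⟩
    obtain ⟨n, hn⟩ := int_to_nat' p hp.pos z N0
    refine ⟨n, fun i hdv => hz i ?_⟩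
    have h4 : (p : ℤ) ∣ (τ i).1 + (τ i).2 * ((n : ℤ) + N0) := by
      rw [← hval i n]
      exact_mod_cast hdv
    have h5 := dvd_sub h4 (Dvd.dvd.mul_left hn ((τ i).2 : ℤ))
    have h6 : (τ i).1 + (τ i).2 * ((n : ℤ) + N0) - (τ i).2 * (((n : ℤ) + N0) - z) =
        (τ i).1 + (τ i).2 * z := by ring
    rwa [h6] at h5
  obtain ⟨n, hn, i, j, hij, hpi, hpj⟩ := hD s h G (by
      intro g
      have h4 : (univ.filter fun i => G i = g).card ≤ (univ : Finset (Fin K)).card := by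
        refine Finset.card_le_card_of_injOn (fun i => (e i).2) (fun _ _ => Finset.mem_coe.2 (Finset.mem_univ _)) ?_
        intro x hx y hy hxy
        rw [Finset.mem_coe, Finset.mem_filter] at hx hy
        exact hein (Prod.ext (hx.2.trans hy.2.symm) hxy)
      rw [Finset.card_univ, Fintype.card_fin] at h4
      omega) (fun i => (hadmτ i).1) (by
      intro i j hij heq
      have h4 : ((s i * h j : ℕ) : ℤ) = ((s j * h i : ℕ) : ℤ) := by exact_mod_cast heq
      push_cast at h4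
      rw [hh i, hh j] at h4
      simp only [s] at h4
      refine hinj i j hij (prop_eq _ _ (hadmτ i) (hadmτ j) ?_)
      linear_combination h4) hadm (∑ i, ∑ j, B i j)
  -- the contradiction
  have main : ∀ i j, G i < G j → (s i * n + h i).Prime → (s j * n + h j).Prime → False := by
    intro i j hlt' hpi hpj
    obtain ⟨_, h4, _⟩ := hρ i j hlt'
    have h5 := hB i j hlt' (s i * n + h i) hpi ⟨s j * n + h j, hpj, by
      rw [hval j n, hval i n, h4]
      simp only [cmp]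
      push_cast
      ring⟩
    have h6 : B i j ≤ ∑ i, ∑ j, B i j :=
      (Finset.single_le_sum (f := fun j => B i j) (fun _ _ => Nat.zero_le _) (Finset.mem_univ j)).trans
        (Finset.single_le_sum (f := fun i => ∑ j, B i j) (fun _ _ => Nat.zero_le _) (Finset.mem_univ i))
    have h7 : n ≤ s i * n + h i := by
      have h8 : 1 ≤ s i := (hadmτ i).1
      nlinarith
    omega
  rcases lt_or_gt_of_ne hij with h4 | h4
  · exact main i j h4 hpi hpj
  · exact main j i h4 hpj hpi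

end Pool.Agent.AmS
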