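import Pool.Agent.AmS.Dens
import Pool.Agent.AmS.NoFour
import Pool.Agent.PolD.Out

/-! AMENABLE SEMIGROUPS (helper35): the theorem. -/

set_option autoImplicit false

namespace Pool.Agent.AmS

open Finset Pool.Agent.SL

theorem cmp_can (f g h : ℤ × ℕ) (hh : Adm h) (e : cmp f h = cmp g h) : f = g := by
  have h1 := congrArg Prod.snd e
  have h2 := congrArg Prod.fst e
  simp only [cmp] at h1 h2
  have h3 : f.2 = g.2 := Nat.eq_of_mul_eq_mul_right hh.1 h1
  rw [h3] at h2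
  exact Prod.ext (by linarith) h3

theorem cmp_can_left (f g h : ℤ × ℕ) (hh : Adm h) (e : cmp h f = cmp h g) : f = g := by
  have h1 := congrArg Prod.snd e
  have h2 := congrArg Prod.fst e
  simp only [cmp] at h1 h2
  have h3 : f.2 = g.2 := Nat.eq_of_mul_eq_mul_left hh.1 h1
  have h4 : (h.2 : ℤ) ≠ 0 := by exact_mod_cast hh.1.ne'
  have h5 : (h.2 : ℤ) * f.1 = h.2 * g.1 := by linarith
  exact Prod.ext (mul_left_cancel₀ h4 h5) h3

/-- powers of `f` -/
def pw (f : ℤ × ℕ) : ℕ → ℤ × ℕ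
  | 0 => f
  | m + 1 => cmp (pw f m) f

theorem pw_mem (S : Set (ℤ × ℕ)) (hop : ∀ f ∈ S, ∀ g ∈ S, cmp f g ∈ S) (f : ℤ × ℕ) (hf : f ∈ S) (m : ℕ) :
    pw f m ∈ S := by
  induction m with
  | zero => exact hf
  | succ m ih => exact hop _ ih _ hf

theorem pw_snd (f : ℤ × ℕ) (m : ℕ) : (pw f m).2 = f.2 ^ (m + 1) := by
  induction m with
  | zero => simp [pw]
  | succ m ih =>
    show (cmp (pw f m) f).2 = _
    simp only [cmp]
    rw [ih, pow_succ _ (m + 1)]

theorem pw_fst (f : ℤ × ℕ) (hf : f.2 = 1) (m : ℕ) : (pw f m).1 = (m + 1) * f.1 := by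
  induction m with
  | zero => simp [pw]
  | succ m ih =>
    show (cmp (pw f m) f).1 = _
    simp only [cmp]
    rw [ih, pw_snd, hf]
    push_cast
    ring

theorem pw_inj (f : ℤ × ℕ) (hf : Adm f) (hne : f ≠ (0, 1)) : Function.Injective (pw f) := by
  intro m n h
  by_cases hd : f.2 = 1
  · have ha : f.1 ≠ 0 := fun h0 => hne (Prod.ext h0 hd)
    have h1 := congrArg Prod.fst h
    rw [pw_fst f hd, pw_fst f hd] at h1
    have h2 := mul_right_cancel₀ ha h1
    have h3 : (m : ℤ) = n := by linarith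
    exact_mod_cast h3
  · have h1 := congrArg Prod.snd h
    rw [pw_snd, pw_snd] at h1
    have h2 : 2 ≤ f.2 := by
      have := hf.1
      omega
    have h3 := Nat.pow_right_injective h2 h1
    omega

/-- large sufficiently invariant sets -/
theorem main_ev (S : Set (ℤ × ℕ)) (hS : ∀ f ∈ S, Adm f) (hop : ∀ f ∈ S, ∀ g ∈ S, cmp f g ∈ S)
    (hne : S.Nonempty) (ε : ℝ) (hε : 0 < ε) :
    Ev cmp S (fun Φ => (1 / 3 - ε) * Φ.card ≤ ct Φ GdP) := by
  classical
  obtain ⟨K, hK, hD⟩ := Pool.Agent.PolD.dhlg4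
  have hcan : ∀ s ∈ S, ∀ s' ∈ S, ∀ g ∈ S, cmp s g = cmp s' g → s = s' :=
    fun s _ s' _ g hg h => cmp_can s s' g (hS g hg) h
  by_cases h3 : ∃ s₀ ∈ S, 3 ∣ s₀.2
  · obtain ⟨s₀, hs₀, hs₀3⟩ := h3
    refine third_const cmp S hcan (fun f => decide (3 ∣ f.2)) (fun s t => ?_) s₀ hs₀ (by simpa using hs₀3) GdP
      ?_ ε hε
    · simp only [cmp]
      rw [← Bool.decide_or]
      exact decide_eq_decide.2 (Nat.Prime.dvd_mul Nat.prime_three)
    · refine no_four K hK hD S hS _ _ fun T _ hTS hT3 _ => ⟨0, fun i hi t ht hd => ?_⟩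
      have h4 : 3 ∣ t.2 := by simpa using hT3 i hi t ht
      have h5 : (3 : ℤ) ∣ (t.2 : ℤ) := by exact_mod_cast h4
      have h6 : (3 : ℤ) ∣ t.1 := by simpa using hd
      have h7 := Int.dvd_gcd h6 h5
      rw [(hS t (hTS i hi t ht)).2.1] at h7
      exact absurd h7 (by norm_num)
  · push Not at h3
    refine third_perm cmp S hcan hop hne (fun f => ((f.1 : ZMod 3), (f.2 : ZMod 3))) (fun s t => ?_)
      (fun s hs => ?_) GdP (fun u hu => ?_) ε hε
    · simp only [cmp, mulR]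
      push_cast
      rfl
    · show ((s.2 : ℕ) : ZMod 3) ≠ 0
      intro h
      exact h3 s hs ((ZMod.natCast_eq_zero_iff _ _).1 h)
    · obtain ⟨z, hz⟩ := hu
      refine no_four K hK hD S hS _ _ fun T _ hTS hT3 _ => ⟨(z.val : ℤ), fun i hi t ht hd => ?_⟩
      refine hz i hi ?_
      have h4 : ((t.1 : ZMod 3), (t.2 : ZMod 3)) = u i := hT3 i hi t ht
      rw [← h4]
      have h5 := (ZMod.intCast_zmod_eq_zero_iff_dvd (t.1 + t.2 * (z.val : ℤ)) 3).2 (by exact_mod_cast hd)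
      push_cast at h5
      rw [ZMod.natCast_zmod_val] at h5
      exact h5

/-- **The theorem on amenable semigroups.** -/
theorem main (S : Set (ℤ × ℕ)) (hS : ∀ f ∈ S, Adm f) (hop : ∀ f ∈ S, ∀ g ∈ S, cmp f g ∈ S)
    (ε : ℝ) (hε : 0 < ε) :
    ∃ (F : Finset (ℤ × ℕ)) (δ : ℝ), (∀ g ∈ F, g ∈ S) ∧ 0 < δ ∧ ∀ Φ : Finset (ℤ × ℕ), Φ.Nonempty →
      (∀ f ∈ Φ, f ∈ S) → (∀ g ∈ F, (ct Φ (fun f => cmp f g ∉ Φ) : ℝ) ≤ δ * Φ.card) →
      (1 / 3 - ε) * Φ.card ≤ ct Φ GdP := by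
  classical
  by_cases h : ∃ f ∈ S, f ≠ (0, 1)
  · obtain ⟨f, hf, hf1⟩ := h
    obtain ⟨F, δ, N, hF, hδ, H⟩ := main_ev S hS hop ⟨f, hf⟩ ε hε
    refine ⟨F ∪ (range N).image (pw f), min δ (1 / (N + 1)), ?_, lt_min hδ (by positivity),
      fun Φ hne hΦ hinv => H Φ ⟨hΦ, hne, fun g hg => ?_⟩ ?_⟩
    · intro g hg
      rcases Finset.mem_union.1 hg with h1 | h1
      · exact hF g h1
      · obtain ⟨m, _, rfl⟩ := Finset.mem_image.1 h1
        exact pw_mem S hop f hf m
    · exact (hinv g (Finset.mem_union_left _ hg)).trans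
        (mul_le_mul_of_nonneg_right (min_le_left _ _) (Nat.cast_nonneg _))
    · by_contra hlt
      push Not at hlt
      obtain ⟨s, hs⟩ := hne
      have h1 : ∀ m ∈ range N, cmp s (pw f m) ∈ Φ := by
        intro m hm
        by_contra hcon
        have h2 := hinv (pw f m) (Finset.mem_union_right _ (Finset.mem_image_of_mem _ hm))
        have h3 : 1 ≤ ct Φ (fun s => cmp s (pw f m) ∉ Φ) := by
          rw [ct_eq, Nat.succ_le_iff, Finset.card_pos]
          exact ⟨s, Finset.mem_filter.2 ⟨hs, hcon⟩⟩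
        have h4 : (1 : ℝ) ≤ ct Φ (fun s => cmp s (pw f m) ∉ Φ) := by exact_mod_cast h3
        have h5 : (Φ.card : ℝ) < N := by exact_mod_cast hlt
        have h6 : min δ (1 / ((N : ℝ) + 1)) * Φ.card ≤ 1 / (N + 1) * Φ.card :=
          mul_le_mul_of_nonneg_right (min_le_right _ _) (Nat.cast_nonneg _)
        have h7 : 1 / ((N : ℝ) + 1) * Φ.card < 1 := by
          rw [one_div_mul_eq_div, div_lt_one (by positivity)]
          linarith
        linarith
      have h2 : N ≤ Φ.card := by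
        have h3 := Finset.card_le_card_of_injOn (s := range N) (t := Φ) (fun m => cmp s (pw f m))
          (fun m hm => h1 m hm) (fun m _ n _ hmn => pw_inj f (hS f hf) hf1
            (cmp_can_left _ _ s (hS s (hΦ s hs)) hmn))
        rwa [Finset.card_range] at h3
      omega
  · push Not at h
    refine ⟨∅, 1, fun g hg => absurd hg (Finset.notMem_empty g), one_pos, fun Φ hne hΦ _ => ?_⟩
    have h1 : ct Φ GdP = Φ.card := by
      rw [ct_eq, Finset.filter_true_of_mem]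
      intro f hf
      rw [h f (hΦ f hf)]
      exact gdP_one
    rw [h1]
    have h2 : (0 : ℝ) ≤ Φ.card := Nat.cast_nonneg _
    nlinarith

end Pool.Agent.AmS
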